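import Pool.Agent.MP_e6aac2_al.Defs

/-!
Finite certificates for small boundary, and semi-decidability of their absence.
-/

noncomputable section

namespace Pool.Agent.MP_e6aac2_al

open Primrec

section RE

variable {α β : Type} [Primcodable α] [Primcodable β]

lemma re_of_exists {p : α → β → Prop} (hp : PrimrecRel p) : REPred fun a => ∃ b, p a b := by
  classical
  have h1 : Primrec₂ fun (a : α) (n : ℕ) =>
      (Encodable.decode n : Option β).bind fun b => if p a b then some b else none :=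
    option_bind (Primrec.decode.comp snd)
      (Primrec.ite (hp.comp (fst.comp fst) snd) (option_some.comp snd) (const none)).to₂
  refine (Partrec.rfindOpt h1.to_comp).dom_re.of_eq fun a => ?_
  rw [Nat.rfindOpt_dom]
  constructor
  · rintro ⟨n, b, h⟩
    obtain ⟨c, -, hc⟩ := Option.bind_eq_some_iff.1 h
    split_ifs at hc with h'
    exact ⟨c, h'⟩
  · rintro ⟨b, h⟩
    exact ⟨Encodable.encode b, b, by simp [h]⟩

lemma pr_forall_lt {f : α → ℕ} {p : α → ℕ → Prop} (hf : Primrec f) (hp : PrimrecRel p) :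
    PrimrecPred fun x => ∀ i < f x, p x i :=
  (hp.swap.forall_mem_list.comp (list_range.comp hf) Primrec.id).of_eq (by simp)

lemma pr_exists_mem {f : α → List β} {p : α → β → Prop} (hf : Primrec f) (hp : PrimrecRel p) :
    PrimrecPred fun x => ∃ b ∈ f x, p x b :=
  (hp.swap.exists_mem_list.comp hf Primrec.id).of_eq (by simp)

lemma pr_pow : Primrec₂ fun a b : ℕ => a ^ b := Primrec₂.unpaired'.1 Nat.Primrec.pow

end RE

lemma exists_list_lt {T : Type} {Q : ℕ → List T → Prop}
    (hQ : ∀ i W W', W ⊆ W' → Q i W → Q i W') (k : ℕ) (h : ∀ i < k, ∃ W, Q i W) :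
    ∃ W, ∀ i < k, Q i W := by
  induction k with
  | zero => exact ⟨[], fun _ h => absurd h (Nat.not_lt_zero _)⟩
  | succ k ih =>
    obtain ⟨W, hW⟩ := ih fun i hi => h i (by omega)
    obtain ⟨W', hW'⟩ := h k (by omega)
    refine ⟨W ++ W', fun i hi => ?_⟩
    rcases Nat.lt_succ_iff_lt_or_eq.1 hi with hi | rfl
    · exact hQ _ _ _ (List.subset_append_left _ _) (hW i hi)
    · exact hQ _ _ _ (List.subset_append_right _ _) hW'

lemma exists_digits (b m : ℕ) : ∀ f : ℕ → ℕ, (∀ i, f i < b) →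
    ∃ N < b ^ m, ∀ i < m, N / b ^ i % b = f i := by
  induction m with
  | zero => exact fun f _ => ⟨0, by simp, by simp⟩
  | succ m ih =>
    intro f hf
    obtain ⟨N, h1, h2⟩ := ih (fun i => f (i + 1)) fun i => hf _
    have h0 := hf 0
    refine ⟨f 0 + b * N, by rw [pow_succ]; nlinarith, fun i hi => ?_⟩
    cases i with
    | zero => simp [Nat.mod_eq_of_lt h0]
    | succ i =>
      rw [pow_succ', ← Nat.div_div_eq_div_mul, Nat.add_mul_div_left _ _ (by omega),
        Nat.div_eq_of_lt h0, zero_add, h2 i (by omega)]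

def Dv (l N a i : ℕ) : ℕ := N / (l + 1) ^ (a * l + i) % (l + 1)

lemma pr_Dv {α : Type} [Primcodable α] {l N a i : α → ℕ} (hl : Primrec l) (hN : Primrec N)
    (ha : Primrec a) (hi : Primrec i) : Primrec fun x => Dv (l x) (N x) (a x) (i x) :=
  nat_mod.comp (nat_div.comp hN (pr_pow.comp (succ.comp hl)
    (nat_add.comp (nat_mul.comp ha hl) hi))) (succ.comp hl)

def C12 (r n l N : ℕ) : Prop :=
  (∀ a < r, ∀ i < l, ∀ j < l, ¬ Dv l N a i = Dv l N a j ∨ Dv l N a i = l ∨ i = j) ∧
    ∀ a < r, n * (2 * ((List.range l).filter fun i => Dv l N a i = l).length) < l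

lemma pr_C12 {α : Type} [Primcodable α] (r : ℕ) {n l N : α → ℕ} (hn : Primrec n) (hl : Primrec l)
    (hN : Primrec N) : PrimrecPred fun x => C12 r (n x) (l x) (N x) := by
  refine PrimrecPred.and (pr_forall_lt (const r) ?_) (pr_forall_lt (const r) ?_)
  · refine pr_forall_lt (hl.comp fst) (pr_forall_lt (hl.comp (fst.comp fst)) ?_)
    have h1 := hl.comp (fst.comp (fst.comp (fst (α := (α × ℕ) × ℕ) (β := ℕ))))
    have h2 := hN.comp (fst.comp (fst.comp (fst (α := (α × ℕ) × ℕ) (β := ℕ))))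
    have h3 := pr_Dv h1 h2 (snd.comp (fst.comp fst)) (snd.comp fst)
    exact (Primrec.eq.comp h3 (pr_Dv h1 h2 (snd.comp (fst.comp fst)) snd)).not.or
      ((Primrec.eq.comp h3 h1).or (Primrec.eq.comp (snd.comp fst) snd))
  · have h1 : PrimrecRel fun (i : ℕ) (p : α × ℕ) => Dv (l p.1) (N p.1) p.2 i = l p.1 :=
      Primrec.eq.comp (pr_Dv (hl.comp (fst.comp snd)) (hN.comp (fst.comp snd)) (snd.comp snd) fst)
        (hl.comp (fst.comp snd))
    exact nat_lt.comp (nat_mul.comp (hn.comp fst) (nat_mul.comp (const 2) (list_length.comp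
      (h1.listFilter.comp (list_range.comp (hl.comp fst)) Primrec.id)))) (hl.comp fst)

variable {r : ℕ}

def Edge (l N : ℕ) (a : Fin r × Bool) (i j : ℕ) : Prop :=
  i < l ∧ j < l ∧ (a.2 = true ∧ Dv l N a.1 i = j ∨ a.2 = false ∧ Dv l N a.1 j = i)

instance (l N : ℕ) (a : Fin r × Bool) (i j : ℕ) : Decidable (Edge l N a i j) := by
  unfold Edge; infer_instance

lemma pr_Edge {α : Type} [Primcodable α] {l N i j : α → ℕ} {a : α → Fin r × Bool}
    (hl : Primrec l) (hN : Primrec N) (ha : Primrec a) (hi : Primrec i) (hj : Primrec j) :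
    PrimrecPred fun x => Edge (l x) (N x) (a x) (i x) (j x) :=
  (nat_lt.comp hi hl).and ((nat_lt.comp hj hl).and
    (((Primrec.eq.comp (snd.comp ha) (const true)).and
      (Primrec.eq.comp (pr_Dv hl hN (fin_val.comp (fst.comp ha)) hi) hj)).or
    ((Primrec.eq.comp (snd.comp ha) (const false)).and
      (Primrec.eq.comp (pr_Dv hl hN (fin_val.comp (fst.comp ha)) hj) hi))))

def walk (l N i0 : ℕ) (p : List ((Fin r × Bool) × ℕ)) : Option ℕ :=
  p.foldr (fun q o => o.bind fun i => if Edge l N q.1 i q.2 then some q.2 else none) (some i0)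

lemma pr_walk {α : Type} [Primcodable α] {l N i : α → ℕ} {p : α → List ((Fin r × Bool) × ℕ)}
    (hl : Primrec l) (hN : Primrec N) (hi : Primrec i) (hp : Primrec p) :
    Primrec fun x => walk (l x) (N x) (i x) (p x) := by
  refine list_foldr (h := fun x (z : ((Fin r × Bool) × ℕ) × Option ℕ) => z.2.bind fun i =>
    if Edge (l x) (N x) z.1.1 i z.1.2 then some z.1.2 else none) hp (option_some.comp hi) ?_
  refine option_bind (snd.comp snd) (Primrec.ite (pr_Edge (hl.comp (fst.comp fst))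
    (hN.comp (fst.comp fst)) (fst.comp (fst.comp (snd.comp fst))) snd
    (snd.comp (fst.comp (snd.comp fst))))
    (option_some.comp (snd.comp (fst.comp (snd.comp fst)))) (const none)).to₂

def winv (u : List (Fin r × Bool)) : List (Fin r × Bool) := (u.map fun a => (a.1, !a.2)).reverse

lemma pr_winv : Primrec (winv (r := r)) :=
  list_reverse.comp (list_map Primrec.id
    ((dom_finite fun a : Fin r × Bool => (a.1, !a.2)).comp snd).to₂)

variable {X : Type} (y : Fin r × Bool → X → X) (sec : Fin r × Bool → X → List (Fin r × Bool))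

def stp (u : List (Fin r × Bool)) (x : X) : X × List (Fin r × Bool) :=
  u.foldr (fun a p => (y a p.1, sec a p.1 ++ p.2)) (x, [])

def secw (u : List (Fin r × Bool)) (v : List X) : List (Fin r × Bool) :=
  v.foldl (fun u x => (stp y sec u x).2) u

abbrev Wt (r : ℕ) (X : Type) :=
  ℕ × (List ((Fin r × Bool) × ℕ) × List ((Fin r × Bool) × ℕ)) × List X × X

def Wit (l N : ℕ) (t : Wt r X) : Prop :=
  walk l N t.1 t.2.1.1 = walk l N t.1 t.2.1.2 ∧ ¬ walk l N t.1 t.2.1.1 = none ∧
    ¬ (stp y sec (secw y sec (winv (t.2.1.1.map Prod.fst) ++ t.2.1.2.map Prod.fst) t.2.2.1)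
      t.2.2.2).1 = t.2.2.2

def Cert (n l : ℕ) : Prop :=
  0 < l ∧ ∃ N < (l + 1) ^ (r * l), C12 r n l N ∧ ∀ t, ¬ Wit y sec l N t

lemma Cert.mono {n n' l : ℕ} (h : Cert y sec n' l) (hn : n ≤ n') : Cert y sec n l := by
  obtain ⟨h0, N, h1, ⟨h2, h3⟩, h4⟩ := h
  exact ⟨h0, N, h1, ⟨h2, fun a ha => (Nat.mul_le_mul_right _ hn).trans_lt (h3 a ha)⟩, h4⟩

variable [Finite X] [Primcodable X]

lemma pr_stp : Primrec₂ (stp y sec) := by
  have h1 : Primrec₂ y := dom_finite _
  have h2 : Primrec₂ sec := dom_finite _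
  exact list_foldr (h := fun (_ : List (Fin r × Bool) × X)
    (z : (Fin r × Bool) × X × List (Fin r × Bool)) => (y z.1 z.2.1, sec z.1 z.2.1 ++ z.2.2))
    fst (snd.pair (const [])) ((h1.comp (fst.comp snd) (fst.comp (snd.comp snd))).pair
      (list_append.comp (h2.comp (fst.comp snd) (fst.comp (snd.comp snd)))
        (snd.comp (snd.comp snd)))).to₂

lemma pr_secw : Primrec₂ (secw y sec) :=
  list_foldl (h := fun (_ : List (Fin r × Bool) × List X) (z : List (Fin r × Bool) × X) =>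
    (stp y sec z.1 z.2).2) snd fst
    (snd.comp ((pr_stp y sec).comp (fst.comp snd) (snd.comp snd))).to₂

lemma pr_Wit {α : Type} [Primcodable α] {l N : α → ℕ} {t : α → Wt r X} (hl : Primrec l)
    (hN : Primrec N) (ht : Primrec t) : PrimrecPred fun x => Wit y sec (l x) (N x) (t x) := by
  have h1 := fst.comp (fst.comp (snd.comp ht))
  have h2 := snd.comp (fst.comp (snd.comp ht))
  have h3 := pr_walk hl hN (fst.comp ht) h1
  have h4 := snd.comp (snd.comp (snd.comp ht))
  exact (Primrec.eq.comp h3 (pr_walk hl hN (fst.comp ht) h2)).and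
    ((Primrec.eq.comp h3 (const none)).not.and (Primrec.eq.comp (fst.comp ((pr_stp y sec).comp
      ((pr_secw y sec).comp (list_append.comp (pr_winv.comp (list_map h1 (fst.comp snd).to₂))
        (list_map h2 (fst.comp snd).to₂)) (fst.comp (snd.comp (snd.comp ht)))) h4)) h4).not)

lemma lsc_cert (hex : ∀ n, ∃ l, Cert y sec n l) :
    LowerSemicomputable fun n => sInf {l | Cert y sec n l} := by
  have h1 : PrimrecRel fun (p : ℕ × ℕ) (W : List (Wt r X)) => ∀ l < p.2,
      ∀ N < (l + 1) ^ (r * l), l = 0 ∨ ¬ C12 r p.1 l N ∨ ∃ t ∈ W, Wit y sec l N t := by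
    refine pr_forall_lt (snd.comp fst) (pr_forall_lt
      (pr_pow.comp (succ.comp snd) (nat_mul.comp (const r) snd)) ?_)
    exact (Primrec.eq.comp (snd.comp fst) (const 0)).or
      ((pr_C12 r (fst.comp (fst.comp (fst.comp fst))) (snd.comp fst) snd).not.or
        (pr_exists_mem (snd.comp (fst.comp fst))
          (pr_Wit y sec (snd.comp (fst.comp fst)) (snd.comp fst) snd)))
  refine (re_of_exists h1).of_eq fun p => ?_
  have hmono : ∀ (l N : ℕ) (W W' : List (Wt r X)), W ⊆ W' →
      (l = 0 ∨ ¬ C12 r p.1 l N ∨ ∃ t ∈ W, Wit y sec l N t) →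
      (l = 0 ∨ ¬ C12 r p.1 l N ∨ ∃ t ∈ W', Wit y sec l N t) := fun l N W W' h =>
    Or.imp_right (Or.imp_right fun ⟨t, h1, h2⟩ => ⟨t, h h1, h2⟩)
  constructor
  · rintro ⟨W, hW⟩
    by_contra hlt
    obtain ⟨h0, N, h2, h3, h4⟩ := Nat.sInf_mem (s := {l | Cert y sec p.1 l}) (hex p.1)
    rcases hW _ (not_le.1 hlt) N h2 with h | h | ⟨t, -, h⟩
    · exact h0.ne' h
    · exact h h3
    · exact h4 t h
  · intro h
    refine exists_list_lt (fun l W W' hW H N hN => hmono l N W W' hW (H N hN)) _ fun l hl => ?_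
    refine exists_list_lt (hmono l) _ fun N hN => ?_
    by_contra hcon
    refine Nat.notMem_of_lt_sInf (hl.trans_le h) ⟨?_, N, hN, ?_, fun t ht => ?_⟩
    · exact Nat.pos_of_ne_zero fun h0 => hcon ⟨[], Or.inl h0⟩
    · exact by_contra fun h0 => hcon ⟨[], Or.inr (Or.inl h0)⟩
    · exact hcon ⟨[t], Or.inr (Or.inr ⟨t, by simp, ht⟩)⟩

end Pool.Agent.MP_e6aac2_al
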