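import Mathlib

/-!
Self-similar groups, Følner functions, growth types and lower semicomputable functions.
-/

namespace Pool.Agent.MP_e6aac2_al

/-- A group of permutations of the finite words over `X` is self-similar if for every element `g`
and letter `x` there are a letter `y` and an element `h` with `g (x w) = y h(w)` for all `w`. -/
def IsSelfSimilar {X : Type} (G : Subgroup (Equiv.Perm (List X))) : Prop :=
  ∀ g ∈ G, ∀ x : X, ∃ y : X, ∃ h ∈ G, ∀ w : List X, g (x :: w) = y :: h w

/-- `E` is a finite nonempty set with `|sE △ E| / |E| < 1 / n` for all `s ∈ S`. -/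
def IsFolner {M : Type} [Group M] (S : Finset M) (n : ℕ) (E : Set M) : Prop :=
  E.Finite ∧ E.Nonempty ∧ ∀ s ∈ S, n * (symmDiff ((fun x => s * x) '' E) E).ncard < E.ncard

/-- The Følner function: the least cardinality of such a set. -/
noncomputable def folner {M : Type} [Group M] (S : Finset M) (n : ℕ) : ℕ :=
  sInf {k : ℕ | ∃ E : Set M, IsFolner S n E ∧ E.ncard = k}

/-- `f ≼ g`. -/
def Preceq (f g : ℕ → ℕ) : Prop := ∃ C : ℕ, 0 < C ∧ ∀ n : ℕ, 1 ≤ n → f n ≤ C * g (C * n)

/-- `f ∼ g`. -/
def SameGrowth (f g : ℕ → ℕ) : Prop := Preceq f g ∧ Preceq g f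

/-- `f` has the growth type of the Følner function of a finitely generated amenable self-similar
group (amenability is expressed by Følner's condition for the finite generating set). -/
def IsSelfSimilarFolnerType (f : ℕ → ℕ) : Prop :=
  ∃ (X : Type) (_ : Finite X) (G : Subgroup (Equiv.Perm (List X))) (S : Finset G),
    IsSelfSimilar G ∧ Subgroup.closure (S : Set G) = ⊤ ∧ (∀ n : ℕ, ∃ E : Set G, IsFolner S n E) ∧
      SameGrowth f (folner S)

/-- `g` is lower semicomputable: the relation `k ≤ g n` is recursively enumerable. -/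
def LowerSemicomputable (g : ℕ → ℕ) : Prop := REPred fun p : ℕ × ℕ => p.2 ≤ g p.1

end Pool.Agent.MP_e6aac2_al
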