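import Pool.Agent.MP_e6aac2_al.Defs

/-!
Translations and lamps acting on words.  A lamp carries a machine state, an automaton state and a
position in `ℤ^K`; it survives on a letter exactly when the machine can make the step named by
that letter.
-/

noncomputable section

namespace Pool.Agent.MP_e6aac2_al

structure Sys (K Md St : Type) where
  mul : Md → K → ℤ
  act : Md → Bool
  δ : St → Md → (K → Fin 5) → Option (St × (K → ℤ))

abbrev Dat := ZMod 3 × ZMod 3

abbrev Ctl (K Md : Type) := Md × (K → Fin 5)

abbrev Let (K Md : Type) := Ctl K Md × Dat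

variable {K Md St : Type}

def addc (x : K → Fin 5) (n : K → ℤ) : K → Fin 5 :=
  fun k => ⟨((((x k : ℕ) : ℤ) + n k) % 5).toNat, by omega⟩

def car (x : K → Fin 5) (n : K → ℤ) : K → ℤ := fun k => (((x k : ℕ) : ℤ) + n k) / 5

lemma addc_addc (x : K → Fin 5) (m n : K → ℤ) : addc (addc x m) n = addc x (n + m) := by
  funext k; apply Fin.ext; simp only [addc, Pi.add_apply]; omega

lemma car_add (x : K → Fin 5) (m n : K → ℤ) : car (addc x m) n + car x m = car x (n + m) := by
  funext k; simp only [addc, car, Pi.add_apply]; omega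

lemma addc_zero (x : K → Fin 5) : addc x 0 = x := by
  funext k; apply Fin.ext; simp only [addc, Pi.zero_apply]; omega

lemma car_zero (x : K → Fin 5) : car x 0 = 0 := by
  funext k; simp only [car, Pi.zero_apply]; omega

def out (b : Bool) (α v : Dat) : Dat := if b then (v.1, v.2 + α.2) else (v.1 + α.2, v.2)

def nx (b : Bool) (α v : Dat) : Dat := (α.1, α.1 * (if b then v.1 else v.2))

namespace Sys

variable (M : Sys K Md St)

def dl : Option St → Md → (K → Fin 5) → Option (Option St × (K → ℤ))
  | none, _, y => by classical exact if y = 0 then some (none, 0) else none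
  | some s, md, y => (M.δ s md y).map fun p => (some p.1, p.2)

/-- one step of the state and position of a lamp on a control letter -/
def st1 (σ : Option St) (j : K → ℤ) (c : Ctl K Md) : Option (Option St × (K → ℤ)) :=
  (M.dl σ c.1 (addc c.2 j)).map fun p => (p.1, M.mul c.1 * car c.2 j + p.2)

lemma st1_side {σ : Option St} {j : K → ℤ} {c : Ctl K Md} {p : Option St × (K → ℤ)}
    (h : M.st1 σ j c = some p) : p.1.isNone = σ.isNone := by
  obtain ⟨q, hq, rfl⟩ := Option.map_eq_some_iff.1 h
  cases σ with
  | none =>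
    simp only [dl] at hq
    split_ifs at hq
    cases hq; rfl
  | some s =>
    obtain ⟨r, -, rfl⟩ := Option.map_eq_some_iff.1 hq
    rfl

def o (md : Md) (b : Bool) (α v : Dat) : Dat := if M.act md then out b α v else v

def n (md : Md) (b : Bool) (α v : Dat) : Dat := if M.act md then nx b α v else α

lemma o_o (md : Md) (b : Bool) (α β v : Dat) : M.o md b α (M.o md b β v) = M.o md b (α + β) v := by
  unfold o out
  cases M.act md <;> cases b <;> simp [add_comm, add_left_comm]

lemma n_o (md : Md) (b : Bool) (α β v : Dat) : M.n md b α (M.o md b β v) = M.n md b α v := by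
  unfold n o out nx
  cases M.act md <;> cases b <;> simp

lemma n_add (md : Md) (b : Bool) (α β v : Dat) :
    M.n md b (α + β) v = M.n md b α v + M.n md b β v := by
  unfold n nx
  cases M.act md <;> cases b <;> simp [add_mul]

lemma o_zero (md : Md) (b : Bool) (v : Dat) : M.o md b 0 v = v := by
  unfold o out
  cases M.act md <;> cases b <;> simp

lemma n_zero (md : Md) (b : Bool) (v : Dat) : M.n md b 0 v = 0 := by
  unfold n nx
  cases M.act md <;> cases b <;> simp

def lampF : Option St → Dat → (K → ℤ) → List (Let K Md) → List (Let K Md)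
  | _, _, _, [] => []
  | σ, α, j, a :: w =>
    match M.st1 σ j a.1 with
    | none => a :: w
    | some p => (a.1, M.o a.1.1 σ.isNone α a.2) :: lampF p.1 (M.n a.1.1 σ.isNone α a.2) p.2 w

lemma lampF_none {σ : Option St} {j : K → ℤ} {c : Ctl K Md} (h : M.st1 σ j c = none) (α v : Dat)
    (w : List (Let K Md)) : M.lampF σ α j ((c, v) :: w) = (c, v) :: w := by
  simp only [lampF, h]

lemma lampF_some {σ : Option St} {j : K → ℤ} {c : Ctl K Md} {p : Option St × (K → ℤ)}
    (h : M.st1 σ j c = some p) (α v : Dat) (w : List (Let K Md)) : M.lampF σ α j ((c, v) :: w) =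
      (c, M.o c.1 σ.isNone α v) :: M.lampF p.1 (M.n c.1 σ.isNone α v) p.2 w := by
  simp only [lampF, h]

lemma lampF_add (w : List (Let K Md)) : ∀ (σ : Option St) (α β : Dat) (j : K → ℤ),
    M.lampF σ α j (M.lampF σ β j w) = M.lampF σ (α + β) j w := by
  induction w with
  | nil => intros; rfl
  | cons a w ih =>
    intro σ α β j
    obtain ⟨c, v⟩ := a
    cases h : M.st1 σ j c with
    | none => simp only [M.lampF_none h]
    | some p => simp only [M.lampF_some h, ih, o_o, n_o, n_add]

lemma lampF_zero (w : List (Let K Md)) : ∀ (σ : Option St) (j : K → ℤ), M.lampF σ 0 j w = w := by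
  induction w with
  | nil => intros; rfl
  | cons a w ih =>
    intro σ j
    obtain ⟨c, v⟩ := a
    cases h : M.st1 σ j c with
    | none => rw [M.lampF_none h]
    | some p => rw [M.lampF_some h, o_zero, n_zero, ih]

lemma lampF_comm (w : List (Let K Md)) : ∀ (σ τ : Option St) (α β : Dat) (i j : K → ℤ),
    σ.isNone = τ.isNone →
      M.lampF σ α i (M.lampF τ β j w) = M.lampF τ β j (M.lampF σ α i w) := by
  induction w with
  | nil => intros; rfl
  | cons a w ih =>
    intro σ τ α β i j hs
    obtain ⟨c, v⟩ := a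
    cases h1 : M.st1 σ i c with
    | none =>
      cases h2 : M.st1 τ j c with
      | none => simp only [M.lampF_none h1, M.lampF_none h2]
      | some q => simp only [M.lampF_none h1, M.lampF_some h2]
    | some p =>
      cases h2 : M.st1 τ j c with
      | none => simp only [M.lampF_some h1, M.lampF_none h2]
      | some q =>
        simp only [M.lampF_some h1, M.lampF_some h2, hs, o_o, n_o]
        rw [add_comm α β, ih _ _ _ _ _ _ (by rw [M.st1_side h1, M.st1_side h2, hs])]

def lamp (σ : Option St) (α : Dat) (j : K → ℤ) : Equiv.Perm (List (Let K Md)) where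
  toFun := M.lampF σ α j
  invFun := M.lampF σ (-α) j
  left_inv w := by rw [lampF_add, neg_add_cancel, lampF_zero]
  right_inv w := by rw [lampF_add, add_neg_cancel, lampF_zero]

lemma lamp_apply (σ : Option St) (α : Dat) (j : K → ℤ) (w : List (Let K Md)) :
    M.lamp σ α j w = M.lampF σ α j w := rfl

lemma lamp_inv (σ : Option St) (α : Dat) (j : K → ℤ) : (M.lamp σ α j)⁻¹ = M.lamp σ (-α) j :=
  Equiv.ext fun _ => rfl

lemma lamp_mul (σ : Option St) (α β : Dat) (j : K → ℤ) :
    M.lamp σ α j * M.lamp σ β j = M.lamp σ (α + β) j :=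
  Equiv.ext fun w => M.lampF_add w σ α β j

lemma lamp_zero (σ : Option St) (j : K → ℤ) : M.lamp σ 0 j = 1 :=
  Equiv.ext fun w => M.lampF_zero w σ j

lemma lamp_cube (σ : Option St) (α : Dat) (j : K → ℤ) : M.lamp σ α j ^ 3 = 1 := by
  have : α + α + α = 0 := by revert α; decide
  rw [pow_succ, pow_two, lamp_mul, lamp_mul, this, lamp_zero]

lemma lamp_commute {σ τ : Option St} (α β : Dat) (i j : K → ℤ) (h : σ.isNone = τ.isNone) :
    Commute (M.lamp σ α i) (M.lamp τ β j) :=
  Equiv.ext fun w => M.lampF_comm w σ τ α β i j h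

def trF : (K → ℤ) → List (Let K Md) → List (Let K Md)
  | _, [] => []
  | n, a :: w => ((a.1.1, addc a.1.2 n), a.2) :: trF (M.mul a.1.1 * car a.1.2 n) w

lemma trF_add (w : List (Let K Md)) : ∀ n m : K → ℤ, M.trF n (M.trF m w) = M.trF (n + m) w := by
  induction w with
  | nil => intros; rfl
  | cons a w ih =>
    intro n m
    simp only [trF, ih, addc_addc, ← mul_add, car_add]

lemma trF_zero (w : List (Let K Md)) : M.trF 0 w = w := by
  induction w with
  | nil => rfl
  | cons a w ih => simp only [trF, addc_zero, car_zero, mul_zero, ih]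

def tr (n : K → ℤ) : Equiv.Perm (List (Let K Md)) where
  toFun := M.trF n
  invFun := M.trF (-n)
  left_inv w := by rw [trF_add, neg_add_cancel, trF_zero]
  right_inv w := by rw [trF_add, add_neg_cancel, trF_zero]

lemma tr_apply (n : K → ℤ) (w : List (Let K Md)) : M.tr n w = M.trF n w := rfl

lemma tr_add (n m : K → ℤ) : M.tr (n + m) = M.tr n * M.tr m :=
  Equiv.ext fun w => (M.trF_add w n m).symm

lemma tr_zero : M.tr 0 = 1 := Equiv.ext M.trF_zero

lemma tr_neg (n : K → ℤ) : M.tr (-n) = (M.tr n)⁻¹ := Equiv.ext fun _ => rfl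

lemma st1_tr (σ : Option St) (j n : K → ℤ) (c : Ctl K Md) :
    M.st1 σ (j + n) c =
      (M.st1 σ j (c.1, addc c.2 n)).map fun p => (p.1, p.2 + M.mul c.1 * car c.2 n) := by
  simp only [st1, addc_addc, Option.map_map]
  congr 1
  funext p
  simp only [Function.comp, ← car_add c.2 n j]
  congr 1
  ring

lemma lampF_trF (w : List (Let K Md)) : ∀ (σ : Option St) (α : Dat) (j n : K → ℤ),
    M.lampF σ α j (M.trF n w) = M.trF n (M.lampF σ α (j + n) w) := by
  induction w with
  | nil => intros; rfl
  | cons a w ih =>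
    intro σ α j n
    obtain ⟨c, v⟩ := a
    have h0 := M.st1_tr σ j n c
    cases h : M.st1 σ j (c.1, addc c.2 n) with
    | none =>
      rw [h] at h0
      rw [M.lampF_none h0, trF, M.lampF_none h]
    | some p =>
      rw [h] at h0
      rw [M.lampF_some h0, trF, M.lampF_some h, ih]
      rfl

lemma lamp_conj (σ : Option St) (α : Dat) (j n : K → ℤ) :
    M.lamp σ α (j + n) = (M.tr n)⁻¹ * M.lamp σ α j * M.tr n := by
  rw [mul_assoc, eq_inv_mul_iff_mul_eq]
  exact Equiv.ext fun w => (M.lampF_trF w σ α j n).symm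

end Sys

end Pool.Agent.MP_e6aac2_al
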